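import Pool.Agent.Q191.Beam.Five

/-!
# At most five even one-troughed travelling waves

`z'''' + c² z'' + (z + 1)⁺ - ξ (z + 1)⁻ - 1 = 0` on the line, `z, z' → 0` at `±∞`, where
`0 < c < √2` and `0 < ξ < c⁴ / 4`.  A solution is an even one-troughed wave if it is even and takes
the value `-1` at exactly two points.

Idea of the proof.  Write `c² = α² + β²`, `ξ = α² β²` with `0 < β < α`, and `4 a² = 2 - c²`.  Let `T`
be the positive point with `z = -1` and `s = z' T`.  The equation inside the trough gives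
`β T = arctan (β s) - θ_β` and `α T = arctan (α s) - θ_α + n π` with an integer `n`, where
`tan θ_x = 2 a x / (1 - x²)`.  So `n π = g s` with a strictly increasing function `g`, hence `n`
determines the wave; `n ≥ 1`, and `n ≤ 5` since the wave stays above `-1` outside the trough.
-/

set_option autoImplicit false

namespace Pool.Agent.Results.MP_d3e990_an.AtMostFive

open Filter Topology

/-- `z` is a `C⁴` solution on the line of `z'''' + c² z'' + (z + 1)⁺ - ξ (z + 1)⁻ - 1 = 0` such that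
`z` and `z'` tend to zero at `±∞`. -/
structure IsWave (c ξ : ℝ) (z : ℝ → ℝ) : Prop where
  smooth : ContDiff ℝ 4 z
  eqn : ∀ t, iteratedDeriv 4 z t + c ^ 2 * iteratedDeriv 2 z t +
    max (z t + 1) 0 - ξ * max (-(z t + 1)) 0 - 1 = 0
  top : Tendsto z atTop (𝓝 0)
  bot : Tendsto z atBot (𝓝 0)
  dtop : Tendsto (deriv z) atTop (𝓝 0)
  dbot : Tendsto (deriv z) atBot (𝓝 0)

/-- `z` is an even one-troughed wave: it is a solution, it is even, and it takes the value `-1` at
exactly two points. -/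
def EvenOneTroughed (c ξ : ℝ) (z : ℝ → ℝ) : Prop :=
  IsWave c ξ z ∧ (∀ t, z (-t) = z t) ∧ {t | z t = -1}.encard = 2

/-- For all `c ∈ (0, √2)` and `ξ ∈ (0, c⁴ / 4)` there are at most five even one-troughed waves. -/
theorem result (c ξ : ℝ) (hc0 : 0 < c) (hc2 : c < Real.sqrt 2) (hξ0 : 0 < ξ)
    (hξ : ξ < c ^ 4 / 4) : {z : ℝ → ℝ | EvenOneTroughed c ξ z}.encard ≤ 5 := by
  have h2 : c ^ 2 < 2 := by
    have := Real.sq_sqrt (show (0 : ℝ) ≤ 2 by norm_num)
    nlinarith [Real.sqrt_nonneg 2]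
  have h := Q191.Beam.five hc0 h2 hξ0 hξ
  refine le_trans (Set.encard_le_encard ?_) h
  rintro z ⟨⟨h1, h2, h3, h4, h5, h6⟩, h7, h8⟩
  exact ⟨⟨h1, h2, h3, h4, h5, h6⟩, h7, h8⟩

end Pool.Agent.Results.MP_d3e990_an.AtMostFive
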